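import Pool.Agent.H.MP_f650bf_an.B

open Filter Topology Set

namespace Pool.Agent.Results.MP_f650bf_an.Yes

open Pool.Agent.H.MP_f650bf_an

theorem result {k : Type*} [RCLike k] {X : Type*} [NormedAddCommGroup X] [NormedSpace k X]
    [NormedSpace ℝ X] [IsScalarTower ℝ k X] [CompleteSpace X] (C : Set X)
    (hb : Bornology.IsBounded C) (hcl : IsClosed C) (hco : Convex ℝ C)
    (hn : ¬ IsCompact (toWeakSpace k X '' C)) :
    ∃ K : Set X, K ⊆ C ∧ K.Nonempty ∧ Bornology.IsBounded K ∧ IsClosed K ∧ Convex ℝ K ∧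
      ∃ f : X → X, MapsTo f K K ∧
        (∀ x ∈ K, ∀ y ∈ K, ∀ t ∈ Icc (0 : ℝ) 1,
          f (t • x + (1 - t) • y) = t • f x + (1 - t) • f y) ∧
        (∃ L : ℝ, 0 < L ∧ ∀ x ∈ K, ∀ y ∈ K, ∀ p : ℕ, ‖f^[p] x - f^[p] y‖ ≤ L * ‖x - y‖) ∧
        ∀ x ∈ K, f x ≠ x := by
  obtain ⟨x, hx, L, hL0, hL⟩ := sel' (K := k) C hb hcl hco hn
  obtain ⟨R, hR'⟩ := hb.exists_norm_le
  have hR : ∀ n, ‖x n‖ ≤ R := fun n => hR' _ (hx n)
  have hR0 : 0 ≤ R := (norm_nonneg _).trans (hR 0)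
  let A : ℕ → ℝ := fun n => 1 - 1 / ((n : ℝ) + 1)
  have hA0 : ∀ n, 0 ≤ A n := fun n => by
    have : 1 / ((n : ℝ) + 1) ≤ 1 := by
      rw [div_le_one (by positivity)]; linarith [Nat.cast_nonneg (α := ℝ) n]
    simp only [A]; linarith
  have hA1 : ∀ n, A n < 1 := fun n => by
    have : (0 : ℝ) < 1 / ((n : ℝ) + 1) := by positivity
    simp only [A]; linarith
  have hAm : Monotone A := fun m n h => by
    have : 1 / ((n : ℝ) + 1) ≤ 1 / ((m : ℝ) + 1) := by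
      apply one_div_le_one_div_of_le (by positivity)
      have : (m : ℝ) ≤ n := by exact_mod_cast h
      linarith
    simp only [A]; linarith
  have hAt : Tendsto A atTop (𝓝 1) := by
    have := (tendsto_one_div_add_atTop_nhds_zero_nat (𝕜 := ℝ)).const_sub 1
    rwa [sub_zero] at this
  have hAD : A ∈ D := ⟨hAm, by simp [A], hAt⟩
  have hsub : Phi x '' D ⊆ C := by
    rintro _ ⟨s, hs, rfl⟩; exact Phi_mem x R hR hcl hco hx hs
  let f : X → X := fun z => Phi x (fun n => A n * Function.invFunOn (Phi x) D z n)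
  have hf : ∀ s ∈ D, f (Phi x s) = Phi x (fun n => A n * s n) := fun s hs => by
    simp only [f, (inj x R hR L hL).leftInvOn_invFunOn hs]
  have hp : ∀ p : ℕ, Monotone (fun n => A n ^ p) ∧ (∀ n, 0 ≤ A n ^ p) ∧
      Tendsto (fun n => A n ^ p) atTop (𝓝 1) := fun p =>
    ⟨fun m n h => pow_le_pow_left₀ (hA0 m) (hAm h) p, fun n => pow_nonneg (hA0 n) p,
      by simpa using hAt.pow p⟩
  have hfp : ∀ p : ℕ, ∀ s ∈ D, f^[p] (Phi x s) = Phi x (fun n => A n ^ p * s n) := by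
    intro p s hs
    induction p with
    | zero => simp
    | succ p ih =>
      rw [Function.iterate_succ_apply', ih, hf _ (D_mul hs (hp p).1 (hp p).2.1 (hp p).2.2)]
      congr 1; funext n; ring
  refine ⟨Phi x '' D, hsub, ⟨_, A, hAD, rfl⟩, hb.subset hsub, closed x R hR L hL hL0, ?_, f,
    ?_, ?_, ⟨L * (2 + R), by positivity, ?_⟩, ?_⟩
  · rintro _ ⟨s, hs, rfl⟩ _ ⟨t, ht, rfl⟩ a b ha hb hab
    exact ⟨_, D_comb hs ht ha hb hab, Phi_comb x R hR hs ht ha hb hab⟩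
  · rintro _ ⟨s, hs, rfl⟩
    exact ⟨_, D_mul hs hAm hA0 hAt, (hf s hs).symm⟩
  · rintro _ ⟨s, hs, rfl⟩ _ ⟨t, ht, rfl⟩ a ha
    have h1 : 0 ≤ 1 - a := sub_nonneg.2 ha.2
    have h2 : a + (1 - a) = 1 := by ring
    rw [← Phi_comb x R hR hs ht ha.1 h1 h2, hf _ (D_comb hs ht ha.1 h1 h2), hf s hs, hf t ht,
      ← Phi_comb x R hR (D_mul hs hAm hA0 hAt) (D_mul ht hAm hA0 hAt) ha.1 h1 h2]
    congr 1; funext n; ring
  · rintro _ ⟨s, hs, rfl⟩ _ ⟨t, ht, rfl⟩ p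
    rw [hfp p s hs, hfp p t ht]
    exact lip x R hR L hL hs ht (hp p).1 (hp p).2.1 (hp p).2.2
  · rintro _ ⟨s, hs, rfl⟩ h
    rw [hf s hs] at h
    have h1 := inj x R hR L hL (D_mul hs hAm hA0 hAt) hs h
    have h2 : ∀ n, s n = 0 := fun n => by
      have h3 := congrFun h1 n
      have h4 := hA1 n
      have : (1 - A n) * s n = 0 := by linarith
      rcases mul_eq_zero.1 this with h5 | h5
      · linarith
      · exact h5
    have h3 := hs.2.2
    rw [funext h2] at h3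
    exact zero_ne_one (tendsto_nhds_unique tendsto_const_nhds h3)

end Pool.Agent.Results.MP_f650bf_an.Yes
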